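import Mathlib

/-!
# Bases that differ by at most two have a common antipalindromic number

The problem asks whether there are two distinct bases without a common antipalindromic number
and proposes the pair (6, 8) as a candidate. Here it is shown that two distinct bases that differ
by at most 2 always have a common antipalindromic number. For (6, 8) one is 43490045690.
-/

namespace Pool.Agent.Results.MP_0a1a8e_nt.Distance2

/-- `m` is antipalindromic in base `b`: if `a_0, ..., a_n` are the digits of `m` in base `b`
(`a_0` the units digit, `a_n` the leading digit) then `a_j + a_(n - j) = b - 1` for all `j ≤ n`. -/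
def Antipalindromic (b m : ℕ) : Prop :=
  0 < m ∧ ∀ j < (Nat.digits b m).length,
    (Nat.digits b m).getD j 0 + (Nat.digits b m).getD ((Nat.digits b m).length - 1 - j) 0 = b - 1

instance (b m : ℕ) : Decidable (Antipalindromic b m) := by
  unfold Antipalindromic
  infer_instance

/-- A list of digits witnesses that a number is antipalindromic. -/
theorem of_digits {b m : ℕ} (L : List ℕ) (hb : 2 ≤ b) (hm : Nat.ofDigits b L = m)
    (h1 : ∀ d ∈ L, d < b) (h2 : ∀ h : L ≠ [], L.getLast h ≠ 0) (h0 : L ≠ [])
    (h3 : ∀ j < L.length, L.getD j 0 + L.getD (L.length - 1 - j) 0 = b - 1) :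
    Antipalindromic b m := by
  have e : Nat.digits b m = L := by
    rw [← hm]
    exact Nat.digits_ofDigits b (by omega) L h1 h2
  refine ⟨?_, ?_⟩
  · rcases Nat.eq_zero_or_pos m with h | h
    · rw [h, Nat.digits_zero] at e
      exact absurd e.symm h0
    · exact h
  · rw [e]
    exact h3

/-- For an even base `b = 2 i + 2 < 226`, an antipalindromic number in the bases `b`, `b + 2`. -/
def table : List ℕ :=
  [12, 1230, 43490045690, 734438692703165562, 604593, 2740452, 1892670, 567518944695, 32023189,
   32419149, 2635122837444983125506, 25787428650, 124642234350, 350756595, 333955126,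
   327632118, 491084055, 716378460, 1410246786, 1925993901, 2825517042251,
   96017188615956612991890, 27974847358062315, 5584356577142, 44218230376657902390,
   794763032857358625306804, 22041005855, 37618487569410, 34500159435, 42439749905,
   51845471055, 62926173765, 75912253235, 91057081305, 108638484855, 128960270285,
   152353794075, 179179579425, 209828978975, 244725883605, 616216207246227, 807011924846960,
   2783693478652875, 1961592401688168, 115158600060189860247983, 16324146448506077181,
   1074658440984945, 2141079938062915, 19675471544528453280, 7825772970227421,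
   1531366826709604, 500198097630, 563660567925, 633678314680, 710780981415, 795529615170,
   888517881865, 990373304700, 1101758525595, 1223372589670, 1355952252765, 1500273312000,
   1657151959375, 1827446158410, 2012057043825, 2211930344260, 2428057828035, 2661478771950,
   2913281453125, 3184604663880, 3476639249655, 3790629669970, 4127875582425, 4489733449740,
   4877618169835, 5293004728950, 5737429877805, 6212493830800, 6719861988255, 7261266681690,
   7838508942145, 8453460291540, 9108064557075, 9804339708670, 10544379719445, 11330356449240,
   12164521551175, 13049208401250, 13986834050985, 14979901203100, 16031000210235,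
   17142811096710, 41284636810560, 44022317782212, 46909637562060, 49953068994240,
   53159292680520, 56535201379020, 60087904449012, 63824732341800, 67753241137680,
   71881217128980, 76216681449180, 80767894748112, 85543361913240, 90551836837020,
   95802327230340, 101304099482040, 107066683564512, 113099877985380, 3553681689020882146,
   3783115103342117850]

theorem table_ok : ∀ i < 112, Antipalindromic (2 * i + 2) (table.getD i 0) ∧
    Antipalindromic (2 * i + 2 + 2) (table.getD i 0) := by
  decide +kernel

theorem six (b a0 a1 a2 a3 a4 a5 : ℕ) (hb : 2 ≤ b) (h0 : a0 + a5 = b - 1) (h1 : a1 + a4 = b - 1)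
    (h2 : a2 + a3 = b - 1) (h5 : 0 < a5) :
    Antipalindromic b (Nat.ofDigits b [a0, a1, a2, a3, a4, a5]) := by
  apply of_digits _ hb rfl
  · intro d hd
    simp only [List.mem_cons, List.not_mem_nil, or_false] at hd
    omega
  · intro _
    simpa using h5.ne'
  · simp
  · intro j hj
    simp only [List.length_cons, List.length_nil] at hj ⊢
    interval_cases j <;> simp <;> omega

theorem two (b a0 a1 : ℕ) (hb : 2 ≤ b) (h0 : a0 + a1 = b - 1) (h1 : 0 < a1) :
    Antipalindromic b (Nat.ofDigits b [a0, a1]) := by
  apply of_digits _ hb rfl
  · intro d hd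
    simp only [List.mem_cons, List.not_mem_nil, or_false] at hd
    omega
  · intro _
    simpa using h1.ne'
  · simp
  · intro j hj
    simp only [List.length_cons, List.length_nil] at hj ⊢
    interval_cases j <;> simp <;> omega

theorem even_large (j : ℕ) : ∃ m, Antipalindromic (226 + 2 * j) m ∧
    Antipalindromic (226 + 2 * j + 2) m := by
  refine ⟨Nat.ofDigits (226 + 2 * j) [117 + j, 17, 126 + j, 99 + j, 208 + 2 * j, 108 + j], ?_, ?_⟩
  · apply six <;> omega
  · have e : Nat.ofDigits (226 + 2 * j) [117 + j, 17, 126 + j, 99 + j, 208 + 2 * j, 108 + j] =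
        Nat.ofDigits (226 + 2 * j + 2) [123 + j, 175 + 2 * j, 227 + j, j, 52, 104 + j] := by
      simp only [Nat.ofDigits_cons, Nat.ofDigits_nil]
      ring
    rw [e]
    apply six <;> omega

theorem dist_one {b : ℕ} (hb : 3 ≤ b) : ∃ m, Antipalindromic b m ∧ Antipalindromic (b + 1) m := by
  obtain ⟨k, rfl⟩ := Nat.exists_eq_add_of_le hb
  refine ⟨Nat.ofDigits (3 + k) [0, 2 + k], ?_, ?_⟩
  · apply two <;> omega
  · have e : Nat.ofDigits (3 + k) [0, 2 + k] = Nat.ofDigits (3 + k + 1) [2, 1 + k] := by
      simp only [Nat.ofDigits_cons, Nat.ofDigits_nil]
      ring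
    rw [e]
    apply two <;> omega

theorem odd_large (k : ℕ) : ∃ m, Antipalindromic (2 * k + 5) m ∧
    Antipalindromic (2 * k + 5 + 2) m := by
  refine ⟨Nat.ofDigits (2 * k + 5) [k + 2, k + 2], ?_, ?_⟩
  · apply two <;> omega
  · have e : Nat.ofDigits (2 * k + 5) [k + 2, k + 2] =
        Nat.ofDigits (2 * k + 5 + 2) [k + 5, k + 1] := by
      simp only [Nat.ofDigits_cons, Nat.ofDigits_nil]
      ring
    rw [e]
    apply two <;> omega

/-- Two distinct bases that differ by at most 2 have a common antipalindromic number. -/
theorem result : ∀ b₁ b₂ : ℕ, 2 ≤ b₁ → b₁ < b₂ → b₂ ≤ b₁ + 2 →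
    ∃ m : ℕ, Antipalindromic b₁ m ∧ Antipalindromic b₂ m := by
  intro b c hb hbc hc
  rcases (show c = b + 1 ∨ c = b + 2 by omega) with rfl | rfl
  · rcases (show b = 2 ∨ 3 ≤ b by omega) with rfl | h
    · exact ⟨666, by decide +kernel, by decide +kernel⟩
    · exact dist_one h
  · rcases Nat.even_or_odd' b with ⟨k, rfl | rfl⟩
    · by_cases h : k < 113
      · have := table_ok (k - 1) (by omega)
        rw [show 2 * (k - 1) + 2 = 2 * k by omega] at this
        exact ⟨_, this⟩
      · have := even_large (k - 113)
        rw [show 226 + 2 * (k - 113) = 2 * k by omega] at this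
        exact this
    · rcases (show k = 1 ∨ 2 ≤ k by omega) with rfl | h
      · exact ⟨6372, by decide +kernel, by decide +kernel⟩
      · have := odd_large (k - 2)
        rw [show 2 * (k - 2) + 5 = 2 * k + 1 by omega] at this
        exact this

end Pool.Agent.Results.MP_0a1a8e_nt.Distance2
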