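import Mathlib

/-!
# No congruence condition on the second base excludes a common antipalindromic number

For every base `b`, every residue class contains infinitely many bases `B` such that some number
with at least two digits in base `B` is antipalindromic in the bases `b` and `B`.
-/

namespace Pool.Agent.Results.MP_0a1a8e_nt.ResidueClasses

/-- `m` is antipalindromic in base `b`: if `a_0, ..., a_n` are the digits of `m` in base `b`
(`a_0` the units digit, `a_n` the leading digit) then `a_j + a_(n - j) = b - 1` for all `j ≤ n`. -/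
def Antipalindromic (b m : ℕ) : Prop :=
  0 < m ∧ ∀ j < (Nat.digits b m).length,
    (Nat.digits b m).getD j 0 + (Nat.digits b m).getD ((Nat.digits b m).length - 1 - j) 0 = b - 1

/-- A list of digits witnesses that a number is antipalindromic. -/
theorem of_digits {b m : ℕ} (L : List ℕ) (hb : 2 ≤ b) (hm : Nat.ofDigits b L = m)
    (h1 : ∀ d ∈ L, d < b) (h2 : ∀ h : L ≠ [], L.getLast h ≠ 0) (h0 : L ≠ [])
    (h3 : ∀ j < L.length, L.getD j 0 + L.getD (L.length - 1 - j) 0 = b - 1) :
    Antipalindromic b m := by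
  have e : Nat.digits b m = L := by
    rw [← hm]
    exact Nat.digits_ofDigits b (by omega) L h1 h2
  refine ⟨?_, ?_⟩
  · rcases Nat.eq_zero_or_pos m with h | h
    · rw [h, Nat.digits_zero] at e
      exact absurd e.symm h0
    · exact h
  · rw [e]
    exact h3

theorem two_digits {B s : ℕ} (hs : 2 ≤ s) (hB : s ≤ B) : Antipalindromic B (s * (B - 1)) := by
  obtain ⟨k, rfl⟩ := Nat.exists_eq_add_of_le hB
  obtain ⟨l, rfl⟩ := Nat.exists_eq_add_of_le hs
  apply of_digits [k, l + 1] (by omega)
  · simp only [Nat.ofDigits_cons, Nat.ofDigits_nil]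
    rw [show 2 + l + k - 1 = 1 + l + k by omega]
    ring
  · intro d hd
    simp only [List.mem_cons, List.not_mem_nil, or_false] at hd
    omega
  · intro _
    simp
  · simp
  · intro j hj
    simp only [List.length_cons, List.length_nil] at hj ⊢
    interval_cases j <;> simp <;> omega

theorem ofDigits_compl {b : ℕ} (X : List ℕ) (hX : ∀ d ∈ X, d < b) :
    Nat.ofDigits b (X.map fun d => b - 1 - d) + Nat.ofDigits b X + 1 = b ^ X.length := by
  induction X with
  | nil => simp
  | cons x X ih =>
    have hx : x < b := hX x (by simp)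
    have ih' := ih (fun d hd => hX d (by simp [hd]))
    rw [List.map_cons, Nat.ofDigits_cons, Nat.ofDigits_cons, List.length_cons, pow_succ', ← ih']
    have : ((b - 1 - x : ℕ) : ℕ) + x + 1 = b := by omega
    nlinarith [this]

theorem getD_of_palindrome {X : List ℕ} (h : X.reverse = X) {j : ℕ} (hj : j < X.length) :
    X.getD (X.length - 1 - j) 0 = X.getD j 0 := by
  have h1 : X.reverse.getD j 0 = X.getD (X.length - 1 - j) 0 := by
    rw [List.getD_eq_getElem _ _ (by simpa using hj), List.getD_eq_getElem _ _ (by omega),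
      List.getElem_reverse]
  rw [← h1, h]

/-- If `x` is a `K`-digit palindrome then `(b ^ K - 1) (x + 1)` is antipalindromic. -/
theorem of_palindrome {b : ℕ} (hb : 2 ≤ b) (X : List ℕ) (hX : ∀ d ∈ X, d < b)
    (hp : X.reverse = X) (h0 : X ≠ []) (hl : X.getLast h0 ≠ 0) :
    Antipalindromic b ((b ^ X.length - 1) * (Nat.ofDigits b X + 1)) := by
  have hlen : 0 < X.length := List.length_pos_iff.2 h0
  have hc := ofDigits_compl X hX
  set C := X.map fun d => b - 1 - d with hC
  have hCl : C.length = X.length := by simp [hC]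
  apply of_digits (C ++ X) hb
  · rw [Nat.ofDigits_append, hCl, ← hc]
    have : (Nat.ofDigits b C + Nat.ofDigits b X + 1 - 1) =
      Nat.ofDigits b C + Nat.ofDigits b X := rfl
    rw [this]
    ring
  · intro d hd
    rw [List.mem_append] at hd
    rcases hd with hd | hd
    · rw [hC, List.mem_map] at hd
      obtain ⟨x, _, rfl⟩ := hd
      omega
    · exact hX d hd
  · intro h
    rw [List.getLast_append_of_ne_nil _ h0]
    exact hl
  · simp [h0]
  · intro j hj
    rw [List.length_append, hCl] at hj ⊢
    have key : ∀ i < X.length, C.getD i 0 + X.getD (X.length - 1 - i) 0 = b - 1 := by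
      intro i hi
      rw [getD_of_palindrome hp hi, List.getD_eq_getElem _ _ (by omega),
        List.getD_eq_getElem _ _ hi]
      have h1 : C[i]'(by omega) = b - 1 - X[i] := by simp [hC]
      have h2 : X[i] < b := hX _ (List.getElem_mem hi)
      omega
    rcases lt_or_ge j X.length with h | h
    · rw [List.getD_append _ _ _ _ (by omega),
        List.getD_append_right _ _ _ _ (by omega), hCl,
        show X.length + X.length - 1 - j - X.length = X.length - 1 - j by omega]
      exact key j h
    · rw [List.getD_append_right _ _ _ _ (by omega), List.getD_append _ _ _ _ (by omega), hCl]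
      have := key (X.length + X.length - 1 - j) (by omega)
      rw [show X.length - 1 - (X.length + X.length - 1 - j) = j - X.length by omega] at this
      omega

theorem ofDigits_replicate (b e : ℕ) : Nat.ofDigits b (List.replicate e 0) = 0 := by
  induction e with
  | zero => simp
  | succ e ih => rw [List.replicate_succ, Nat.ofDigits_cons, ih]; simp

/-- The central part of the palindrome. -/
theorem core {b d A t : ℕ} (hd : 1 ≤ d) (hb : b ^ (A + d) ≡ b ^ A [MOD t]) (k : ℕ) :
    ∀ n ≤ 2 * k + 1, ∃ M : List ℕ, M.length = 2 * k * d + 1 ∧ M.reverse = M ∧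
      (∀ x ∈ M, x ≤ 1) ∧ b ^ A * Nat.ofDigits b M ≡ b ^ A * n [MOD t] := by
  have hper : ∀ i, b ^ (A + i * d) ≡ b ^ A [MOD t] := by
    intro i
    induction i with
    | zero => simp [Nat.ModEq]
    | succ i ih =>
      have : b ^ (A + (i + 1) * d) = b ^ (A + d) * b ^ (i * d) := by ring
      rw [this]
      refine (hb.mul_right _).trans ?_
      rw [← pow_add]
      exact ih
  induction k with
  | zero =>
    intro n hn
    refine ⟨[n], by simp, by simp, by simpa using hn, ?_⟩
    simp [Nat.ModEq]
  | succ k ih =>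
    intro n hn
    obtain ⟨c, n', hc, hn', hnn⟩ : ∃ c n', c ≤ 1 ∧ n' ≤ 2 * k + 1 ∧ n = n' + 2 * c := by
      by_cases h : 2 ≤ n
      · exact ⟨1, n - 2, le_rfl, by omega, by omega⟩
      · exact ⟨0, n, by omega, by omega, by omega⟩
    obtain ⟨M, h1, h2, h3, h4⟩ := ih n' hn'
    refine ⟨(c :: List.replicate (d - 1) 0) ++ M ++ (List.replicate (d - 1) 0 ++ [c]),
      ?_, ?_, ?_, ?_⟩
    · simp only [List.length_append, List.length_cons, List.length_replicate, List.length_nil, h1]
      obtain ⟨d, rfl⟩ := Nat.exists_eq_add_of_le hd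
      rw [show 1 + d - 1 = d by omega]
      ring
    · simp [h2]
    · intro x hx
      simp only [List.mem_append, List.mem_cons, List.mem_replicate, List.not_mem_nil,
        or_false] at hx
      rcases hx with (((rfl | hx) | hx) | hx)
      · exact hc
      · omega
      · exact h3 x hx
      · omega
    · have e : Nat.ofDigits b ((c :: List.replicate (d - 1) 0) ++ M ++
          (List.replicate (d - 1) 0 ++ [c])) =
          c + b ^ d * Nat.ofDigits b M + b ^ ((2 * k + 2) * d) * c := by
        rw [List.append_assoc, Nat.ofDigits_append, Nat.ofDigits_append, Nat.ofDigits_append,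
          Nat.ofDigits_cons, ofDigits_replicate, h1]
        simp only [List.length_cons, List.length_replicate, Nat.ofDigits_singleton]
        obtain ⟨d, rfl⟩ := Nat.exists_eq_add_of_le hd
        rw [show 1 + d - 1 = d by omega]
        ring
      rw [e, hnn]
      have e1 : b ^ A * (c + b ^ d * Nat.ofDigits b M + b ^ ((2 * k + 2) * d) * c) =
          b ^ A * c + b ^ (A + d) * Nat.ofDigits b M + b ^ (A + (2 * k + 2) * d) * c := by ring
      have e2 : b ^ A * (n' + 2 * c) = b ^ A * c + b ^ A * n' + b ^ A * c := by ring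
      rw [e1, e2]
      exact (((Nat.ModEq.refl _).add ((hb.mul_right _).trans h4)).add
        ((hper (2 * k + 2)).mul_right _))

/-- Palindromic digit strings of odd length hit every residue class. -/
theorem exists_palindrome {b t : ℕ} (hb : 2 ≤ b) (ht : 1 ≤ t) : ∃ N₀, ∀ h ≥ N₀, ∀ u,
    ∃ Y : List ℕ, Y.length = 2 * h + 1 ∧ Y.reverse = Y ∧ (∀ x ∈ Y, x < b) ∧
      Nat.ofDigits b Y ≡ u [MOD t] := by
  obtain ⟨A₀, d, hd, hA₀⟩ : ∃ A₀ d, 1 ≤ d ∧ b ^ (A₀ + d) ≡ b ^ A₀ [MOD t] := by
    have : NeZero t := ⟨by omega⟩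
    obtain ⟨i, j, hij, he⟩ := Finite.exists_ne_map_eq_of_infinite (fun i : ℕ => (b : ZMod t) ^ i)
    rcases lt_or_gt_of_ne hij with h | h
    · refine ⟨i, j - i, by omega, ?_⟩
      rw [show i + (j - i) = j by omega, ← ZMod.natCast_eq_natCast_iff]
      push_cast
      exact he.symm
    · refine ⟨j, i - j, by omega, ?_⟩
      rw [show j + (i - j) = i by omega, ← ZMod.natCast_eq_natCast_iff]
      push_cast
      exact he
  set A := A₀ + t with hA
  have hper : b ^ (A + d) ≡ b ^ A [MOD t] := by
    have : b ^ (A + d) = b ^ (A₀ + d) * b ^ t := by rw [hA]; ring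
    rw [this, hA, pow_add b A₀ t]
    exact hA₀.mul_right _
  have hperi : ∀ i, b ^ (A + i * d) ≡ b ^ A [MOD t] := by
    intro i
    induction i with
    | zero => simp [Nat.ModEq]
    | succ i ih =>
      have : b ^ (A + (i + 1) * d) = b ^ (A + d) * b ^ (i * d) := by ring
      rw [this]
      refine (hper.mul_right _).trans ?_
      rw [← pow_add]
      exact ih
  refine ⟨A + t * d, ?_⟩
  intro h hh u
  obtain ⟨e, rfl⟩ := Nat.exists_eq_add_of_le hh
  set v := u % t with hv
  have hvt : v < t := Nat.mod_lt _ (by omega)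
  have hvA : v < b ^ A := by
    calc v < t := hvt
      _ < 2 ^ t := Nat.lt_two_pow_self
      _ ≤ b ^ t := Nat.pow_le_pow_left hb t
      _ ≤ b ^ A := Nat.pow_le_pow_right (by omega) (by omega)
  have hlenv : (Nat.digits b v).length ≤ A := by
    rw [Nat.digits_length_le_iff (by omega)]
    exact hvA
  set V := Nat.digits b v ++ List.replicate (A - (Nat.digits b v).length) 0 with hV
  have hVlen : V.length = A := by
    rw [hV, List.length_append, List.length_replicate]
    omega
  have hVval : Nat.ofDigits b V = v := by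
    rw [hV, Nat.ofDigits_append, ofDigits_replicate, Nat.ofDigits_digits, mul_zero, add_zero]
  have hVlt : ∀ x ∈ V, x < b := by
    intro x hx
    rw [hV, List.mem_append, List.mem_replicate] at hx
    rcases hx with hx | hx
    · exact Nat.digits_lt_base (by omega) hx
    · omega
  clear_value V
  set rv := Nat.ofDigits b V.reverse with hrv
  obtain ⟨M, h1, h2, h3, h4⟩ := core hd hper t (t - (b ^ (e + 1) * rv) % t) (by omega)
  refine ⟨V ++ (List.replicate e 0 ++ M ++ List.replicate e 0) ++ V.reverse, ?_, ?_, ?_, ?_⟩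
  · simp only [List.length_append, List.length_reverse, List.length_replicate, hVlen, h1]
    ring
  · simp [h2]
  · intro x hx
    simp only [List.mem_append, List.mem_replicate, List.mem_reverse] at hx
    rcases hx with ((hx | ((hx | hx) | hx)) | hx)
    · exact hVlt x hx
    · omega
    · have := h3 x hx
      omega
    · omega
    · exact hVlt x hx
  · have e1 : Nat.ofDigits b (V ++ (List.replicate e 0 ++ M ++ List.replicate e 0) ++ V.reverse) =
        v + b ^ e * (b ^ A * Nat.ofDigits b M) + b ^ (A + (2 * t) * d) * (b ^ (2 * e + 1) * rv) := by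
      rw [Nat.ofDigits_append, Nat.ofDigits_append, Nat.ofDigits_append, Nat.ofDigits_append,
        ofDigits_replicate, hVval]
      simp only [List.length_append, List.length_replicate, hVlen, h1, ← hrv]
      ring
    rw [e1]
    have s1 : b ^ e * (b ^ A * Nat.ofDigits b M) ≡
        b ^ e * (b ^ A * (t - (b ^ (e + 1) * rv) % t)) [MOD t] := h4.mul_left _
    have s2 : b ^ (A + (2 * t) * d) * (b ^ (2 * e + 1) * rv) ≡
        b ^ A * (b ^ (2 * e + 1) * rv) [MOD t] := (hperi (2 * t)).mul_right _
    have s3 : b ^ e * (b ^ A * (t - (b ^ (e + 1) * rv) % t)) + b ^ A * (b ^ (2 * e + 1) * rv) =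
        b ^ (A + e) * ((t - (b ^ (e + 1) * rv) % t) + b ^ (e + 1) * rv) := by ring
    have s4 : (t - (b ^ (e + 1) * rv) % t) + b ^ (e + 1) * rv ≡ 0 [MOD t] := by
      have hlt : (b ^ (e + 1) * rv) % t < t := Nat.mod_lt _ (by omega)
      rw [Nat.modEq_zero_iff_dvd]
      refine ⟨1 + (b ^ (e + 1) * rv) / t, ?_⟩
      have := Nat.mod_add_div (b ^ (e + 1) * rv) t
      rw [mul_add, mul_one]
      omega
    have s5 := (s1.add s2)
    rw [s3] at s5
    have s6 := s5.trans (s4.mul_left (b ^ (A + e)))
    rw [mul_zero] at s6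
    have s7 : v + (b ^ e * (b ^ A * Nat.ofDigits b M) +
        b ^ (A + (2 * t) * d) * (b ^ (2 * e + 1) * rv)) ≡ v + 0 [MOD t] := s6.add_left v
    rw [← add_assoc, add_zero] at s7
    exact s7.trans (Nat.mod_modEq u t)

/-- The repunit with a large prime number of digits is coprime to `t`. -/
theorem repunit_coprime {b t K : ℕ} (hK : K.Prime) (ht : 1 ≤ t) (htK : t < K) :
    Nat.Coprime (∑ i ∈ Finset.range K, b ^ i) t := by
  apply Nat.Coprime.symm
  apply Nat.coprime_of_dvd
  intro l hl h1 h2
  have : Fact l.Prime := ⟨hl⟩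
  have hlt : l ≤ t := Nat.le_of_dvd (by omega) h1
  have h3 : (∑ i ∈ Finset.range K, (b : ZMod l) ^ i) = 0 := by
    have := (ZMod.natCast_eq_zero_iff _ _).2 h2
    push_cast at this
    exact this
  have h4 : (b : ZMod l) ^ K = 1 := by
    have := geom_sum_mul (b : ZMod l) K
    rw [h3, zero_mul] at this
    exact (sub_eq_zero.1 this.symm)
  have h5 := orderOf_dvd_of_pow_eq_one h4
  rcases (Nat.dvd_prime hK).1 h5 with h6 | h6
  · have h7 : (b : ZMod l) = 1 := orderOf_eq_one_iff.1 h6
    rw [h7] at h3
    simp only [one_pow, Finset.sum_const, Finset.card_range, nsmul_eq_mul, mul_one] at h3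
    have h8 := (ZMod.natCast_eq_zero_iff _ _).1 h3
    have := (Nat.prime_dvd_prime_iff_eq hl hK).1 h8
    omega
  · have hb0 : (b : ZMod l) ≠ 0 := by
      intro h
      rw [h, zero_pow hK.ne_zero] at h4
      exact zero_ne_one h4
    have h7 := orderOf_dvd_of_pow_eq_one (ZMod.pow_card_sub_one_eq_one hb0)
    rw [h6] at h7
    have h8 : K ≤ l - 1 := Nat.le_of_dvd (by have := hl.two_le; omega) h7
    omega

/-- For every base `b`, every residue class `r` modulo `t` and every bound `N` there is a base
`B > N` in this residue class and a number `m` with at least two digits in base `B` which is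
antipalindromic in the bases `b` and `B`. -/
theorem result : ∀ b t r N : ℕ, 2 ≤ b → 1 ≤ t →
    ∃ B m : ℕ, N < B ∧ B ≡ r [MOD t] ∧ B ≤ m ∧ Antipalindromic b m ∧ Antipalindromic B m := by
  intro b t r N hb ht
  obtain ⟨N₀, hN₀⟩ := exists_palindrome hb ht
  obtain ⟨K, hKN, hK⟩ := Nat.exists_infinite_primes (2 * N₀ + t + N + 4)
  have hodd : K % 2 = 1 := by
    rcases hK.eq_two_or_odd with h | h
    · omega
    · exact h
  obtain ⟨h, rfl⟩ : ∃ h, K = 2 * h + 3 := ⟨(K - 3) / 2, by omega⟩
  set K := 2 * h + 3 with hKdef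
  set G := ∑ i ∈ Finset.range K, b ^ i with hG
  have hcop : Nat.Coprime G t := repunit_coprime hK ht (by omega)
  have hgeom : (b - 1) * G = b ^ K - 1 := by
    rw [hG, mul_comm]
    have := Nat.geomSum_eq hb K
    rw [this]
    exact Nat.div_mul_cancel (by simpa using Nat.sub_dvd_pow_sub_pow b 1 K)
  obtain ⟨g, hg⟩ : ∃ g, G * g ≡ 1 [MOD t] := by
    obtain ⟨g, _, hg⟩ := Nat.exists_mul_mod_eq_of_coprime 1 hcop (by omega)
    exact ⟨g, hg⟩
  set c := g * (r + t - 1) with hc
  obtain ⟨Y, hY1, hY2, hY3, hY4⟩ := hN₀ h (by omega)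
    (c + (t - 1) * (1 + (b - 1) * b ^ (2 * h + 1)))
  set y := Nat.ofDigits b Y with hy
  set z := 1 + y + (b - 1) * b ^ (2 * h + 1) with hz
  have hzc : z ≡ c [MOD t] := by
    have e : z = y + (1 + (b - 1) * b ^ (2 * h + 1)) := by rw [hz]; ring
    rw [e]
    refine (hY4.add_right _).trans ?_
    have e2 : c + (t - 1) * (1 + (b - 1) * b ^ (2 * h + 1)) + (1 + (b - 1) * b ^ (2 * h + 1)) =
        c + t * (1 + (b - 1) * b ^ (2 * h + 1)) := by
      obtain ⟨s, rfl⟩ := Nat.exists_eq_add_of_le ht
      rw [show 1 + s - 1 = s by omega]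
      ring
    rw [e2]
    simp [Nat.ModEq]
  set X := (b - 1) :: (Y ++ [b - 1]) with hX
  have hXlen : X.length = K := by
    rw [hX, List.length_cons, List.length_append, hY1, hKdef]
    simp
  have hXval : Nat.ofDigits b X + 1 = b * z := by
    rw [hX, Nat.ofDigits_cons, Nat.ofDigits_append, hY1, Nat.ofDigits_singleton, ← hy, hz]
    obtain ⟨s, rfl⟩ := Nat.exists_eq_add_of_le hb
    rw [show 2 + s - 1 = s + 1 by omega]
    ring
  have hX0 : X ≠ [] := by simp [hX]
  have hanti := of_palindrome hb X (by
      intro d hd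
      rw [hX, List.mem_cons, List.mem_append, List.mem_singleton] at hd
      rcases hd with rfl | hd | rfl
      · omega
      · exact hY3 d hd
      · omega) (by
      rw [hX]
      simp [hY2]) hX0 (by
      have : X.getLast hX0 = b - 1 := by simp [hX]
      rw [this]
      omega)
  rw [hXlen, hXval, ← hgeom] at hanti
  have hzpos : (b - 1) * b ^ (2 * h + 1) ≤ z := by
    rw [hz]
    omega
  have hGpos : 1 ≤ G := by
    rcases Nat.eq_zero_or_pos G with h0 | h0
    · rw [h0, mul_zero] at hgeom
      have : 1 < b ^ K := Nat.one_lt_pow (by omega) (by omega)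
      omega
    · exact h0
  have hGz : z ≤ G * z := Nat.le_mul_of_pos_left z hGpos
  have hs : b * (b - 1) ≤ z := by
    refine le_trans ?_ hzpos
    rw [mul_comm]
    apply Nat.mul_le_mul_left
    calc b = b ^ 1 := (pow_one b).symm
      _ ≤ b ^ (2 * h + 1) := Nat.pow_le_pow_right (by omega) (by omega)
  have hs2 : 2 ≤ b * (b - 1) := by
    calc 2 = 2 * 1 := rfl
      _ ≤ b * (b - 1) := Nat.mul_le_mul hb (by omega)
  have hNz : N < z := by
    refine lt_of_lt_of_le ?_ hzpos
    calc N < 2 * h + 1 := by omega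
      _ < 2 ^ (2 * h + 1) := Nat.lt_two_pow_self
      _ ≤ b ^ (2 * h + 1) := Nat.pow_le_pow_left hb _
      _ = 1 * b ^ (2 * h + 1) := (one_mul _).symm
      _ ≤ (b - 1) * b ^ (2 * h + 1) := Nat.mul_le_mul_right _ (by omega)
  have hm : (b - 1) * G * (b * z) = b * (b - 1) * (G * z + 1 - 1) := by
    rw [Nat.add_sub_cancel]
    ring
  refine ⟨G * z + 1, (b - 1) * G * (b * z), by omega, ?_, ?_, hanti, ?_⟩
  · have h1 : G * z ≡ G * c [MOD t] := hzc.mul_left _
    have h2 : G * c ≡ r + t - 1 [MOD t] := by
      rw [hc, ← mul_assoc]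
      simpa using hg.mul_right (r + t - 1)
    have h3 := (h1.trans h2).add_right 1
    rw [show r + t - 1 + 1 = r + t by omega] at h3
    exact h3.trans (by simp [Nat.ModEq])
  · rw [hm, Nat.add_sub_cancel]
    calc G * z + 1 ≤ 2 * (G * z) := by omega
      _ ≤ b * (b - 1) * (G * z) := Nat.mul_le_mul_right _ hs2
  · rw [hm]
    exact two_digits hs2 (by omega)

end Pool.Agent.Results.MP_0a1a8e_nt.ResidueClasses
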